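import Mathlib
import Pool.Agent.H482.DS.Abs

/-! Primes in an interval of length `y` modulo all but boundedly many primes. -/

set_option autoImplicit false

namespace Pool.Agent.H482.DI

open Finset Filter

open Pool.Agent.H482.DS (S_MONK S_GSUK Ea triv num_E dense_abs)

/-- exempting a few elements -/
theorem exempt (A A' : Finset ℕ) (E E' : ℝ) (Q : ℕ) (h : A' ⊆ A)
    (hc : ((A \ A').card : ℝ) + E' ≤ E) : Ea E A Q ⊆ Ea E' A' Q := by
  classical
  intro q hq
  unfold Ea at hq ⊢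
  rw [mem_filter, mem_Icc] at hq ⊢
  refine ⟨hq.1, hq.2.1, ?_⟩
  obtain ⟨C, hC, h3⟩ := hq.2.2
  refine ⟨C, hC, ?_⟩
  have hsplit : A = A' ∪ (A \ A') := (union_sdiff_of_subset h).symm
  have hdis : Disjoint A' (A \ A') := disjoint_sdiff
  have e1 : (A.card : ℝ) = A'.card + (A \ A').card := by
    have := card_union_of_disjoint hdis
    rw [← hsplit] at this
    exact_mod_cast this
  have e2 : ((A.filter (fun n => n % q ∈ C)).card : ℝ) =
      (A'.filter (fun n => n % q ∈ C)).card + ((A \ A').filter (fun n => n % q ∈ C)).card := by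
    have g1 : A.filter (fun n => n % q ∈ C) =
        A'.filter (fun n => n % q ∈ C) ∪ (A \ A').filter (fun n => n % q ∈ C) := by
      rw [← filter_union, ← hsplit]
    have g2 : Disjoint (A'.filter (fun n => n % q ∈ C)) ((A \ A').filter (fun n => n % q ∈ C)) :=
      disjoint_filter_filter hdis
    have := card_union_of_disjoint g2
    rw [← g1] at this
    exact_mod_cast this
  have e3 := triv (A \ A') C q hq.1.1 hC
  rw [e1, e2] at h3
  have e4 : (((A'.filter (fun n => n % q ∈ C)).card : ℝ) +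
      ((A \ A').filter (fun n => n % q ∈ C)).card) - (C.card : ℝ) / q * ((A'.card : ℝ) + (A \ A').card)
      = (((A'.filter (fun n => n % q ∈ C)).card : ℝ) - (C.card : ℝ) / q * (A'.card : ℝ)) +
        ((((A \ A').filter (fun n => n % q ∈ C)).card : ℝ) - (C.card : ℝ) / q * ((A \ A').card : ℝ)) := by
    ring
  rw [e4] at h3
  have e5 := abs_add_le (((A'.filter (fun n => n % q ∈ C)).card : ℝ) - (C.card : ℝ) / q * (A'.card : ℝ))
    ((((A \ A').filter (fun n => n % q ∈ C)).card : ℝ) - (C.card : ℝ) / q * ((A \ A').card : ℝ))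
  linarith

/-- sets of primes in `(X, X + y]`, translated -/
theorem interval (hM : S_MONK) (hG : S_GSUK) (ε δ : ℝ) (hε : 0 < ε) (hδ : 0 < δ) : ∃ M : ℕ,
    ∀ y : ℕ, 2 ≤ y → ∀ (X : ℕ) (A : Finset ℕ), A ⊆ Icc 1 y → (∀ n ∈ A, (n + X).Prime) →
    (Ea (ε * (y / Real.log y)) A ⌊(y : ℝ) ^ (1 / 2 - δ)⌋₊).card ≤ M := by
  classical
  obtain ⟨M, hMM⟩ := dense_abs hM hG 1 le_rfl 1 (1 / 2) (ε / 2) δ (by norm_num) (by positivity) hδ
  obtain ⟨X₀, hX3, hX⟩ := num_E 1 (1 / 2) (ε / 2) (by norm_num) (by positivity)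
  refine ⟨max M X₀, fun y hy2 X A hA h => ?_⟩
  have hy1 : (1 : ℝ) ≤ y := by exact_mod_cast (by omega : 1 ≤ y)
  rcases Nat.lt_or_ge y X₀ with hyX | hyX
  · refine le_trans ?_ (le_max_right _ _)
    have h1 : (Ea (ε * (y / Real.log y)) A ⌊(y : ℝ) ^ (1 / 2 - δ)⌋₊).card ≤
        ⌊(y : ℝ) ^ (1 / 2 - δ)⌋₊ := by
      unfold Ea
      refine (card_filter_le _ _).trans ?_
      rw [Nat.card_Icc]
      omega
    have h2 : ⌊(y : ℝ) ^ (1 / 2 - δ)⌋₊ ≤ y := by
      apply Nat.floor_le_of_le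
      calc (y : ℝ) ^ (1 / 2 - δ) ≤ (y : ℝ) ^ (1 : ℝ) :=
            Real.rpow_le_rpow_of_exponent_le hy1 (by linarith)
        _ = y := Real.rpow_one _
    omega
  refine le_trans ?_ (le_max_left _ _)
  have hsm := hX y hyX
  rw [pow_one] at hsm
  obtain ⟨A', hA'⟩ : ∃ A' : Finset ℕ, A' = A.filter (fun n : ℕ => (y : ℝ) ^ (1 / 2 : ℝ) < ((n + X : ℕ) : ℝ)) :=
    ⟨_, rfl⟩
  have hA'A : A' ⊆ A := by rw [hA']; exact filter_subset _ _
  have hc := hMM y hy2 (fun p => (range p).filter (fun r => (r + X) % p = 0)) A' (hA'A.trans hA) (by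
    intro p hp _ hpy
    refine ⟨filter_subset _ _, ?_, ?_⟩
    · rw [Nat.succ_le_iff, card_pos]
      refine ⟨(p - X % p) % p, ?_⟩
      rw [mem_filter, mem_range]
      refine ⟨Nat.mod_lt _ hp.pos, ?_⟩
      rw [Nat.mod_add_mod]
      have g1 := Nat.mod_add_div X p
      have g2 := Nat.mod_lt X hp.pos
      have g3 : p - X % p + X = p * (1 + X / p) := by
        rw [mul_add, mul_one]
        omega
      rw [g3, Nat.mul_mod_right]
    · intro n hn hn'
      rw [mem_filter] at hn'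
      rw [hA', mem_filter] at hn
      have h1 : p ∣ n + X := by
        rw [Nat.dvd_iff_mod_eq_zero, Nat.add_mod]
        have := hn'.2
        rw [Nat.add_mod, Nat.mod_mod] at this
        exact this
      have h2 := (Nat.prime_dvd_prime_iff_eq hp (h n hn.1)).1 h1
      have h3 := hn.2
      rw [← h2] at h3
      linarith)
  rw [pow_one] at hc
  refine le_trans (card_le_card (exempt A A' _ (ε / 2 * (y / Real.log y)) _ hA'A ?_)) hc
  have hB : ((A \ A').card : ℝ) ≤ (y : ℝ) ^ (1 / 2 : ℝ) := by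
    have h4 : A \ A' ⊆ Icc 1 ⌊(y : ℝ) ^ (1 / 2 : ℝ)⌋₊ := by
      intro n hn
      rw [Finset.mem_sdiff, hA', mem_filter] at hn
      rw [mem_Icc]
      refine ⟨(mem_Icc.1 (hA hn.1)).1, Nat.le_floor ?_⟩
      by_contra hcon
      push Not at hcon
      refine hn.2 ⟨hn.1, lt_of_lt_of_le hcon ?_⟩
      exact_mod_cast Nat.le_add_right n X
    have h5 := card_le_card h4
    rw [Nat.card_Icc, Nat.add_sub_cancel] at h5
    have h6 : ((A \ A').card : ℝ) ≤ (⌊(y : ℝ) ^ (1 / 2 : ℝ)⌋₊ : ℕ) := by exact_mod_cast h5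
    exact h6.trans (Nat.floor_le (by positivity))
  linarith

end Pool.Agent.H482.DI
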