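import Mathlib
import Pool.Agent.H482.DI.Int

/-! Primes in an interval modulo all but boundedly many primes: the counting functions. -/

set_option autoImplicit false

namespace Pool.Agent.H482.DI

open Finset Filter

open Pool.Agent.H482.DS (S_MONK S_GSUK Ea)

/-- the number of primes `p ≡ l (mod k)` in `(x - y, x]` -/
def Np (x y k l : ℕ) : ℕ := ((Ioc (x - y) x).filter (fun p => p.Prime ∧ p ≡ l [MOD k])).card

/-- the share of the classes -/
theorem share (hM : S_MONK) (hG : S_GSUK) (ε δ : ℝ) (hε : 0 < ε) (hδ : 0 < δ) : ∃ M : ℕ,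
    ∀ x y : ℕ, 2 ≤ y → y ≤ x → ∃ S : Finset ℕ, S.card ≤ M ∧ ∀ q : ℕ, q.Prime →
      (q : ℝ) ≤ (y : ℝ) ^ (1 / 2 - δ) → q ∉ S → ∀ C ⊆ range q,
      |(∑ l ∈ C, (Np x y q l : ℝ)) - (C.card : ℝ) / q * Np x y 1 0| ≤ ε * (y / Real.log y) := by
  classical
  obtain ⟨M, hMM⟩ := interval hM hG ε δ hε hδ
  refine ⟨M, fun x y hy hyx => ?_⟩
  obtain ⟨X, hX⟩ : ∃ X : ℕ, X = x - y := ⟨_, rfl⟩
  obtain ⟨P, hP⟩ : ∃ P : Finset ℕ, P = (Ioc X x).filter Nat.Prime := ⟨_, rfl⟩
  obtain ⟨A, hA⟩ : ∃ A : Finset ℕ, A = (Icc 1 y).filter (fun n => (n + X).Prime) := ⟨_, rfl⟩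
  have hA1 : A ⊆ Icc 1 y := by rw [hA]; exact filter_subset _ _
  have hA2 : ∀ n ∈ A, (n + X).Prime := by
    intro n hn
    rw [hA, mem_filter] at hn
    exact hn.2
  have hcard : ∀ (Pr : ℕ → Prop) [DecidablePred Pr], ((Ioc X x).filter (fun p => p.Prime ∧ Pr p)).card =
      (A.filter (fun n => Pr (n + X))).card := by
    intro Pr _
    symm
    apply card_bij (fun n _ => n + X)
    · intro n hn
      rw [mem_filter, hA, mem_filter, mem_Icc] at hn
      rw [mem_filter, mem_Ioc]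
      refine ⟨by omega, hn.1.2, hn.2⟩
    · intro n _ m _ h
      simpa using h
    · intro p hp
      rw [mem_filter, mem_Ioc] at hp
      refine ⟨p - X, ?_, by omega⟩
      have h1 : p - X + X = p := by omega
      rw [mem_filter, hA, mem_filter, mem_Icc, h1]
      exact ⟨⟨by omega, hp.2.1⟩, hp.2.2⟩
  refine ⟨Ea (ε * (y / Real.log y)) A ⌊(y : ℝ) ^ (1 / 2 - δ)⌋₊, hMM y hy X A hA1 hA2,
    fun q hq hqy hqS C hC => ?_⟩
  have hN1 : Np x y 1 0 = A.card := by
    unfold Np
    rw [← hX, hcard (fun p => p ≡ 0 [MOD 1])]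
    congr 1
    apply filter_true_of_mem
    intro n _
    exact Nat.modEq_one
  obtain ⟨C', hC'⟩ : ∃ C' : Finset ℕ, C' = (range q).filter (fun r => (r + X) % q ∈ C) := ⟨_, rfl⟩
  have hC'c : C'.card = C.card := by
    apply card_bij' (fun r _ => (r + X) % q) (fun c _ => (c + (q - X % q)) % q)
    · intro r hr
      rw [hC', mem_filter] at hr
      exact hr.2
    · intro c hc
      have hcq := mem_range.1 (hC hc)
      rw [hC', mem_filter, mem_range]
      refine ⟨Nat.mod_lt _ hq.pos, ?_⟩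
      have g1 := Nat.mod_add_div X q
      have g2 := Nat.mod_lt X hq.pos
      have g3 : c + (q - X % q) + X = c + q * (1 + X / q) := by
        rw [mul_add, mul_one]
        omega
      rw [Nat.mod_add_mod, g3, Nat.add_mul_mod_self_left, Nat.mod_eq_of_lt hcq]
      exact hc
    · intro r hr
      rw [hC', mem_filter, mem_range] at hr
      have g1 := Nat.mod_add_div X q
      have g2 := Nat.mod_lt X hq.pos
      have g3 : r + X + (q - X % q) = r + q * (1 + X / q) := by
        rw [mul_add, mul_one]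
        omega
      rw [Nat.mod_add_mod, g3, Nat.add_mul_mod_self_left, Nat.mod_eq_of_lt hr.1]
    · intro c hc
      have hcq := mem_range.1 (hC hc)
      have g1 := Nat.mod_add_div X q
      have g2 := Nat.mod_lt X hq.pos
      have g3 : c + (q - X % q) + X = c + q * (1 + X / q) := by
        rw [mul_add, mul_one]
        omega
      rw [Nat.mod_add_mod, g3, Nat.add_mul_mod_self_left, Nat.mod_eq_of_lt hcq]
  have hsum : ∑ l ∈ C, (Np x y q l : ℝ) = (A.filter (fun n => n % q ∈ C')).card := by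
    have h1 : ∀ l ∈ C, Np x y q l = (A.filter (fun n => (n + X) % q = l)).card := by
      intro l hl
      have hlq := mem_range.1 (hC hl)
      unfold Np
      rw [← hX, hcard (fun p => p ≡ l [MOD q])]
      congr 1
      apply filter_congr
      intro n _
      unfold Nat.ModEq
      rw [Nat.mod_eq_of_lt hlq]
    have h2 : (A.filter (fun n => n % q ∈ C')).card = ∑ l ∈ C, Np x y q l := by
      rw [sum_congr rfl h1, ← card_biUnion]
      · congr 1
        ext n
        rw [mem_filter, mem_biUnion, hC', mem_filter, mem_range, Nat.mod_add_mod]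
        constructor
        · rintro ⟨h3, -, h4⟩
          exact ⟨_, h4, mem_filter.2 ⟨h3, rfl⟩⟩
        · rintro ⟨l, hl, h3⟩
          rw [mem_filter] at h3
          refine ⟨h3.1, Nat.mod_lt _ hq.pos, ?_⟩
          rw [h3.2]
          exact hl
      · intro l _ l' _ hne
        rw [Function.onFun, disjoint_left]
        intro n hn hn'
        rw [mem_filter] at hn hn'
        exact hne (hn.2.symm.trans hn'.2)
    rw [h2]
    push_cast
    rfl
  by_contra hcon
  push Not at hcon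
  apply hqS
  unfold Ea
  rw [mem_filter, mem_Icc]
  refine ⟨⟨hq.one_le, Nat.le_floor hqy⟩, hq, C', by rw [hC']; exact filter_subset _ _, ?_⟩
  rw [← hsum, hC'c, ← hN1]
  exact hcon

/-- almost all classes -/
theorem almost (hM : S_MONK) (hG : S_GSUK) (ε δ : ℝ) (hε : 0 < ε) (hδ : 0 < δ) : ∃ M : ℕ,
    ∀ x y : ℕ, 2 ≤ y → y ≤ x → ∃ S : Finset ℕ, S.card ≤ M ∧ ∀ q : ℕ, q.Prime →
      (q : ℝ) ≤ (y : ℝ) ^ (1 / 2 - δ) → q ∉ S → ∃ L ⊆ range q, (L.card : ℝ) ≤ ε * q ∧
      ∀ l ∈ range q, l ∉ L →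
        |(Np x y q l : ℝ) - (Np x y 1 0 : ℝ) / q| ≤ ε * (y / (q * Real.log y)) := by
  classical
  obtain ⟨M, hMM⟩ := share hM hG (ε ^ 2 / 2) δ (by positivity) hδ
  refine ⟨M, fun x y hy hyx => ?_⟩
  obtain ⟨S, hS, h⟩ := hMM x y hy hyx
  refine ⟨S, hS, fun q hq hqy hqS => ?_⟩
  have hh := h q hq hqy hqS
  have hq0 : (0 : ℝ) < q := by exact_mod_cast hq.pos
  have hy0 : (0 : ℝ) < y := by exact_mod_cast (by omega : 0 < y)
  have hL : 0 < Real.log y := Real.log_pos (by exact_mod_cast (by omega : 1 < y))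
  obtain ⟨τ, hτ⟩ : ∃ τ : ℝ, τ = ε * (y / (q * Real.log y)) := ⟨_, rfl⟩
  have hτ0 : 0 < τ := by rw [hτ]; positivity
  obtain ⟨Lp, hLp⟩ : ∃ Lp : Finset ℕ, Lp = (range q).filter
    (fun l => (Np x y 1 0 : ℝ) / q + τ < Np x y q l) := ⟨_, rfl⟩
  obtain ⟨Lm, hLm⟩ : ∃ Lm : Finset ℕ, Lm = (range q).filter
    (fun l => (Np x y q l : ℝ) < (Np x y 1 0 : ℝ) / q - τ) := ⟨_, rfl⟩
  have hp1 : Lp ⊆ range q := by rw [hLp]; exact filter_subset _ _
  have hm1 : Lm ⊆ range q := by rw [hLm]; exact filter_subset _ _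
  have hτq : ε ^ 2 / 2 * (y / Real.log y) = ε / 2 * q * τ := by
    rw [hτ]
    field_simp
  have hp : (Lp.card : ℝ) ≤ ε / 2 * q := by
    have h1 := hh Lp hp1
    have h2 : (Lp.card : ℝ) * ((Np x y 1 0 : ℝ) / q + τ) ≤ ∑ l ∈ Lp, (Np x y q l : ℝ) := by
      rw [← nsmul_eq_mul, ← sum_const]
      apply sum_le_sum
      intro l hl
      rw [hLp, mem_filter] at hl
      exact hl.2.le
    have h3 := (abs_le.1 h1).2
    rw [hτq] at h3
    have h4 : (Lp.card : ℝ) * τ ≤ ε / 2 * q * τ := by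
      have h5 : (Lp.card : ℝ) / q * Np x y 1 0 = (Lp.card : ℝ) * ((Np x y 1 0 : ℝ) / q) := by ring
      rw [h5] at h3
      linarith
    exact le_of_mul_le_mul_right h4 hτ0
  have hm : (Lm.card : ℝ) ≤ ε / 2 * q := by
    have h1 := hh Lm hm1
    have h2 : ∑ l ∈ Lm, (Np x y q l : ℝ) ≤ (Lm.card : ℝ) * ((Np x y 1 0 : ℝ) / q - τ) := by
      rw [← nsmul_eq_mul, ← sum_const]
      apply sum_le_sum
      intro l hl
      rw [hLm, mem_filter] at hl
      exact hl.2.le
    have h3 := (abs_le.1 h1).1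
    rw [hτq] at h3
    have h4 : (Lm.card : ℝ) * τ ≤ ε / 2 * q * τ := by
      have h5 : (Lm.card : ℝ) / q * Np x y 1 0 = (Lm.card : ℝ) * ((Np x y 1 0 : ℝ) / q) := by ring
      rw [h5] at h3
      linarith
    exact le_of_mul_le_mul_right h4 hτ0
  refine ⟨Lp ∪ Lm, union_subset hp1 hm1, ?_, ?_⟩
  · have h1 : ((Lp ∪ Lm).card : ℝ) ≤ Lp.card + Lm.card := by exact_mod_cast card_union_le _ _
    linarith
  · intro l hl hlL
    rw [mem_union, not_or] at hlL
    rw [← hτ, abs_le]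
    constructor
    · by_contra hcon
      apply hlL.2
      rw [hLm, mem_filter]
      refine ⟨hl, ?_⟩
      push Not at hcon
      linarith
    · by_contra hcon
      apply hlL.1
      rw [hLp, mem_filter]
      refine ⟨hl, ?_⟩
      push Not at hcon
      linarith

end Pool.Agent.H482.DI
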